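import Pool.Agent.Y798.OG.Part
import Pool.Agent.Y798.FC.Law2

/-! Project OG (helper798): the functional with weights and heights (job 7246). -/

set_option autoImplicit false

namespace Pool.Agent.Y434.OG

open MeasureTheory UnitAddTorus Filter Topology NumberField IsDedekindDomain
  Pool.Agent.W540.BE Pool.Agent.TH553.RS Pool.Agent.TH553.ST Pool.Agent.Y798.FC Pool.Agent.Y798.OG
open Pool.Agent.Y139.ID (Good good_ev avg avg_eq)

theorem t : StmFun2 := by
  intro K _ _ r W _ θ U hU a ha ν hνf hν z hz κ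
  have han : ∀ v, ‖(a v : ℂ)‖ ≤ 1 := fun v => by
    rw [Complex.norm_real, Real.norm_eq_abs, abs_of_nonneg (ha v).1]
    exact (ha v).2
  set T : C(UnitAddTorus (Fin r), ℂ) → HeightOneSpectrum (𝓞 K) → ℂ := fun f v =>
    (a v : ℂ) * (sym W (f * mFourier κ : C(UnitAddTorus (Fin r), ℂ)) (θ v) * z v) with hT
  have hTb : ∀ f v, ‖T f v‖ ≤ Nat.card W * ‖f‖ := by
    intro f v
    rw [hT]
    simp only
    rw [norm_mul, norm_mul, hz, mul_one]
    refine (mul_le_of_le_one_left (norm_nonneg _) (han v)).trans ?_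
    refine (sym_norm_le _ _).trans ?_
    refine mul_le_mul_of_nonneg_left ?_ (Nat.cast_nonneg _)
    refine (norm_mul_le _ _).trans ?_
    rw [mFourier_norm, mul_one]
  have hex : ∀ f, ∃ y, Tendsto (cE (T f)) (U : Filter ℝ) (𝓝 y) := fun f =>
    ulim U (R := Nat.card W * ‖f‖) (by
      filter_upwards [hU (good_ev (K := K))] with ε hε
      exact norm_cE_le hε (hTb f))
  choose ℓ hℓ using hex
  have hsadd : ∀ (f g : C(UnitAddTorus (Fin r), ℂ)) v,
      sym W ((f + g) * mFourier κ : C(UnitAddTorus (Fin r), ℂ)) (θ v) =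
      sym W (f * mFourier κ : C(UnitAddTorus (Fin r), ℂ)) (θ v) +
        sym W (g * mFourier κ : C(UnitAddTorus (Fin r), ℂ)) (θ v) := by
    intro f g v
    simp only [sym, ContinuousMap.mul_apply, ContinuousMap.add_apply]
    rw [← Finset.sum_add_distrib]
    exact Finset.sum_congr rfl fun w _ => by ring
  have hadd : ∀ f g v, T (f + g) v = T f v + T g v := by
    intro f g v
    rw [hT]
    simp only
    rw [hsadd]
    ring
  have hssmul : ∀ (b : ℂ) (f : C(UnitAddTorus (Fin r), ℂ)) v,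
      sym W ((b • f) * mFourier κ : C(UnitAddTorus (Fin r), ℂ)) (θ v) =
      b * sym W (f * mFourier κ : C(UnitAddTorus (Fin r), ℂ)) (θ v) := by
    intro b f v
    simp only [sym, ContinuousMap.mul_apply, ContinuousMap.smul_apply, smul_eq_mul]
    rw [Finset.mul_sum]
    exact Finset.sum_congr rfl fun w _ => by ring
  have hsmul : ∀ (b : ℂ) f v, T (b • f) v = b * T f v := by
    intro b f v
    rw [hT]
    simp only
    rw [hssmul]
    ring
  refine ⟨{ toFun := ℓ
            map_add' := fun f g => ?_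
            map_smul' := fun b f => ?_ }, hℓ, fun f => ?_⟩
  · refine tendsto_nhds_unique (hℓ (f + g)) (((hℓ f).add (hℓ g)).congr' ?_)
    filter_upwards [hU (good_ev (K := K))] with ε hε
    rw [← cE_add hε (hTb f) (hTb g)]
    congr 1
    funext v
    exact (hadd f g v).symm
  · refine tendsto_nhds_unique (hℓ (b • f)) (((hℓ f).const_mul b).congr fun ε => ?_)
    rw [← cE_const_mul]
    congr 1
    funext v
    exact (hsmul b f v).symm
  · change ‖ℓ f‖ ≤ _
    have h1 : Tendsto (cE fun v => (a v : ℂ) * sym W (fun x => (‖f x‖ : ℂ)) (θ v)) (U : Filter ℝ)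
        (𝓝 (∫ x, sym W (fun x => (‖f x‖ : ℂ)) x ∂ν)) :=
      hν _ (continuous_sym W (by fun_prop))
    rw [← smeas_sym W _ (by fun_prop)] at h1
    have hfin := smeas_fin W ν
    rw [integral_complex_ofReal] at h1
    have h2 := (Complex.continuous_re.tendsto _).comp h1
    rw [Complex.ofReal_re] at h2
    refine le_of_tendsto_of_tendsto (hℓ f).norm h2 ?_
    filter_upwards [hU (good_ev (K := K))] with ε hε
    simp only [Function.comp]
    refine (norm_cE_le' hε (hTb f)).trans ?_
    have hreal : ∀ v, (a v : ℂ) * sym W (fun x => (‖f x‖ : ℂ)) (θ v) =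
        ((a v * ∑ w : W, ‖f (act (w : Auts (Fin r)) (θ v))‖ : ℝ) : ℂ) := by
      intro v
      unfold sym
      push_cast
      rfl
    have hb1 : ∀ v, ‖((‖T f v‖ : ℝ) : ℂ)‖ ≤ Nat.card W * ‖f‖ := fun v => by
      rw [Complex.norm_real, norm_norm]
      exact hTb f v
    have hnn : ∀ v, 0 ≤ ∑ w : W, ‖f (act (w : Auts (Fin r)) (θ v))‖ := fun v =>
      Finset.sum_nonneg fun _ _ => norm_nonneg _
    have hle : ∀ v, a v * ∑ w : W, ‖f (act (w : Auts (Fin r)) (θ v))‖ ≤ Nat.card W * ‖f‖ :=
      fun v => by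
      refine (mul_le_of_le_one_left (hnn v) (ha v).2).trans ?_
      refine (Finset.sum_le_card_nsmul _ _ ‖f‖ fun w _ => f.norm_coe_le_norm _).trans ?_
      rw [Finset.card_univ, nsmul_eq_mul, Nat.card_eq_fintype_card]
    have hnn' : ∀ v, 0 ≤ a v * ∑ w : W, ‖f (act (w : Auts (Fin r)) (θ v))‖ := fun v =>
      mul_nonneg (ha v).1 (hnn v)
    have hb2 : ∀ v, ‖(a v : ℂ) * sym W (fun x => (‖f x‖ : ℂ)) (θ v)‖ ≤ Nat.card W * ‖f‖ :=
      fun v => by
      rw [hreal, Complex.norm_real, Real.norm_eq_abs, abs_of_nonneg (hnn' v)]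
      exact hle v
    rw [cE_re hε hb1, cE_re hε hb2, avg_eq, avg_eq]
    refine Summable.tsum_le_tsum (fun v => ?_)
      (summ_norm hε (B := Nat.card W * ‖f‖) fun v => by
        rw [Complex.ofReal_re, abs_norm]; exact hTb f v)
      (summ_norm hε (B := Nat.card W * ‖f‖) fun v => by
        rw [hreal, Complex.ofReal_re, abs_of_nonneg (hnn' v)]; exact hle v)
    refine mul_le_mul_of_nonneg_left ?_ (Pool.Agent.Y139.ID.wt_nonneg hε v)
    rw [hreal, Complex.ofReal_re, Complex.ofReal_re, hT]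
    simp only
    rw [norm_mul, norm_mul, hz, mul_one, Complex.norm_real, Real.norm_eq_abs,
      abs_of_nonneg (ha v).1]
    refine mul_le_mul_of_nonneg_left ?_ (ha v).1
    unfold sym
    refine (norm_sum_le _ _).trans (le_of_eq (Finset.sum_congr rfl fun w _ => ?_))
    rw [ContinuousMap.mul_apply, norm_mul, norm_mF, mul_one]

end Pool.Agent.Y434.OG
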